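import Pool.Agent.H521.G.OddSq

open MeasureTheory Set Filter Topology
open scoped ENNReal ComplexConjugate

namespace Pool.Agent.Results.MP_5f6ee5_nt.ShapesBetweenOddSquares

/-- A sequence of (Beurling) generalised primes `1 < p 0 < p 1 < ⋯ → ∞`. -/
structure GenPrimes (p : ℕ → ℝ) : Prop where
  one_lt : 1 < p 0
  strictMono : StrictMono p
  tendsto : Tendsto p atTop atTop

/-- The generalised integer `∏ p_j ^ (e j)` with exponent vector `e`. -/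
noncomputable def genInt (p : ℕ → ℝ) (e : ℕ →₀ ℕ) : ℝ := e.prod fun j k => p j ^ k

/-- `N_P(x)`, the number of generalised integers `≤ x`, counted with multiplicity. -/
noncomputable def countInts (p : ℕ → ℝ) (x : ℝ) : ℕ := Set.ncard {e : ℕ →₀ ℕ | genInt p e ≤ x}

/-- `π_P(x)`, the number of generalised primes `≤ x`. -/
noncomputable def countPrimes (p : ℕ → ℝ) (x : ℝ) : ℕ := Set.ncard {j : ℕ | p j ≤ x}

/-- The zeta function `ζ_P(s) = ∑ n^{-s}` over the generalised integers. -/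
noncomputable def zetaP (p : ℕ → ℝ) (s : ℂ) : ℂ := ∑' e : ℕ →₀ ℕ, ((genInt p e : ℝ) : ℂ) ^ (-s)

/-- The main term `∫_2^x (1 - ∑_{ρ ∈ Z} Re u^{ρ-1}) du / log u` of the prime counting function,
that is `li x - ∑_ρ li x^ρ` up to a constant, for a finite multiset `Z` of zeros. -/
noncomputable def primeMain (Z : Multiset ℂ) (x : ℝ) : ℝ :=
  ∫ u in (2 : ℝ)..x, (1 - (Z.map fun ρ => ((u : ℂ) ^ (ρ - 1)).re).sum) / Real.log u

/-- `p` is a system of generalised primes whose zeta function continues to `Re s > 1/2`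
with only a simple pole at `1`, with zeros exactly `Z` there (with multiplicity) and with the
Lindelöf bound, and with square-root error terms in the counting of generalised integers and
of generalised primes.  For `Z = 0` this is the Riemann hypothesis for `p`. -/
structure System (Z : Multiset ℂ) (p : ℕ → ℝ) : Prop where
  primes : GenPrimes p
  summable : ∀ s : ℂ, 1 < s.re → Summable fun e : ℕ →₀ ℕ => ((genInt p e : ℝ) : ℂ) ^ (-s)
  zeta : ∃ g : ℂ → ℂ, DifferentiableOn ℂ g {s : ℂ | 1 / 2 < s.re} ∧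
    (∀ s : ℂ, 1 < s.re → (s - 1) * zetaP p s = (Z.map fun ρ => s - ρ).prod * Complex.exp (g s)) ∧
    ∀ ε : ℝ, 0 < ε → ∃ C : ℝ, ∀ s : ℂ, 1 / 2 + ε ≤ s.re →
      ‖(Z.map fun ρ => s - ρ).prod * Complex.exp (g s)‖ ≤ C * (1 + ‖s‖) ^ (1 + ε)
  ints : ∃ κ : ℝ, 0 < κ ∧ ∀ ε : ℝ, 0 < ε → ∃ C : ℝ, ∀ x : ℝ, 1 ≤ x →
    |(countInts p x : ℝ) - κ * x| ≤ C * x ^ (1 / 2 + ε)
  pnt : ∀ ε : ℝ, 0 < ε → ∃ C : ℝ, ∀ x : ℝ, 2 ≤ x →
    |(countPrimes p x : ℝ) - primeMain Z x| ≤ C * x ^ (1 / 2 + ε)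

/-- `P_k`, the number of generalised primes strictly between `(2 k - 1) ^ 2` and
`(2 k + 1) ^ 2`. -/
noncomputable def primesBetween (p : ℕ → ℝ) (k : ℕ) : ℕ :=
  Set.ncard {j : ℕ | (2 * (k : ℝ) - 1) ^ 2 < p j ∧ p j < (2 * (k : ℝ) + 1) ^ 2}

/-- Sets of natural numbers with `#(S ∩ [1, N]) = O(N^ε)` for every `ε > 0`. -/
def Sparse (S : Set ℕ) : Prop := ∀ ε : ℝ, 0 < ε → ∃ C : ℝ, ∀ N : ℕ, 1 ≤ N →
  ((Set.ncard {n | n ∈ S ∧ n ≤ N} : ℕ) : ℝ) ≤ C * (N : ℝ) ^ ε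

/-- Functions with `a(n) = O(n^(1+ε))` for every `ε > 0`. -/
def NearLinear (a : ℕ → ℕ) : Prop := ∀ ε : ℝ, 0 < ε → ∃ C : ℝ, ∀ n : ℕ, 1 ≤ n →
  (a n : ℝ) ≤ C * (n : ℝ) ^ (1 + ε)

open Pool.Agent.H521 Pool.Agent.H521.G in
/-- **Theorem.** For systems of generalised primes with Riemann hypothesis (or any other finite
set of zeros) and square-root error terms, and the numbers `P_k` of generalised primes between
consecutive odd squares:
* the sequences `r` with `P_k / (4 k / log k) - r(k) → 0` for some system are exactly those which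
  are `δ`-close to `1` outside sparse sets and `O(k^ε)`;
* the sets of exceptions to `P_k ≥ 2` are exactly the sparse sets;
* `P_k` can be prescribed exactly on sparse sets. -/
theorem result (Z : Multiset ℂ) (hZ : ∀ ρ ∈ Z, 1 / 2 < ρ.re ∧ ρ.re < 1) (hZc : Z.map conj = Z) :
    (∀ r : ℕ → ℝ, (∀ k, 0 ≤ r k) →
      ((∃ p : ℕ → ℝ, System Z p ∧
        Tendsto (fun k : ℕ => (primesBetween p k : ℝ) / (4 * k / Real.log k) - r k)
          atTop (𝓝 0)) ↔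
      (∀ δ : ℝ, 0 < δ → Sparse {k | δ ≤ |r k - 1|}) ∧
        ∀ ε : ℝ, 0 < ε → ∃ C : ℝ, ∀ k : ℕ, 1 ≤ k → r k ≤ C * (k : ℝ) ^ ε)) ∧
    (∀ S : Set ℕ, (∃ p : ℕ → ℝ, System Z p ∧ ∃ k₀ : ℕ, ∀ k, k₀ ≤ k →
      (primesBetween p k < 2 ↔ k ∈ S)) ↔ Sparse S) ∧
    (∀ S : Set ℕ, Sparse S → ∀ a : ℕ → ℕ, NearLinear a → ∃ p : ℕ → ℝ, System Z p ∧
      (∃ k₀ : ℕ, ∀ k, k₀ ≤ k → k ∈ S → primesBetween p k = a k) ∧
      ∀ ε : ℝ, 0 < ε → ∃ k₀ : ℕ, ∀ k, k₀ ≤ k → k ∉ S →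
        |(primesBetween p k : ℝ) / (4 * k / Real.log k) - 1| ≤ ε) := by
  have hZ1 : ∀ ρ ∈ Z, ρ.re < 1 := fun ρ h => (hZ ρ h).2
  have hW : ∀ p : ℕ → ℝ, System Z p → SysW Z p := fun p hS =>
    ⟨hS.primes.one_lt, hS.primes.strictMono, hS.primes.tendsto, hS.summable, hS.zeta, hS.pnt⟩
  have hB : ∀ p : ℕ → ℝ, Sys Z p → System Z p := fun p hs =>
    ⟨⟨by linarith [hs.three_le 0], hs.mono, hs.tendsto⟩, hs.summable, hs.zeta, hs.ints, hs.pnt⟩
  have hP : ∀ p k, primesBetween p k = cntO p (osq k) (osq (k + 1)) := by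
    intro p k
    rw [osq_succ]
    rfl
  have hE : ∀ k : ℕ, 4 * (k : ℝ) / Real.log k = oexp k := fun k => rfl
  simp_rw [hP, hE]
  have key : ∀ S : Set ℕ, Sparse S → ∀ a : ℕ → ℕ, NearLinear a → ∃ p : ℕ → ℝ, System Z p ∧
      (∃ k₀ : ℕ, ∀ k, k₀ ≤ k → k ∈ S → cntO p (osq k) (osq (k + 1)) = a k) ∧
      ∀ ε : ℝ, 0 < ε → ∃ k₀ : ℕ, ∀ k, k₀ ≤ k → k ∉ S →
        |(cntO p (osq k) (osq (k + 1)) : ℝ) / oexp k - 1| ≤ ε := by
    intro S hS a ha
    obtain ⟨p, hp, h1, h2⟩ := odd_exact hZ1 hZc (S := S) hS ha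
    exact ⟨p, hB p hp, h1, h2⟩
  refine ⟨fun r hr0 => ?_, fun S => ?_, key⟩
  · obtain ⟨h1, h2⟩ := odd_shape hZ1 hZc hr0
    constructor
    · rintro ⟨p, hp, h⟩
      exact h2 p (hW p hp) h
    · intro h
      obtain ⟨p, hp, h'⟩ := h1.2 h
      exact ⟨p, hB p hp, h'⟩
  · constructor
    · rintro ⟨p, hp, k₀, h⟩
      exact Sps.of_map (few_count hZ1 hZc (hW p hp) osq_brk 2) (n₀ := k₀) (A := 1) (f := id)
        (fun n hn hn0 => (h n hn0).2 hn) (fun n => by simp) (fun m n _ _ _ _ hmn => hmn)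
    · intro hS
      obtain ⟨p, hp, ⟨k₀, h1⟩, h2⟩ := key S hS (fun _ => 0)
        (fun ε hε => ⟨1, fun n hn => by simp; positivity⟩)
      obtain ⟨k₁, h3⟩ := h2 (1 / 2) (by norm_num)
      obtain ⟨k₂, h4⟩ := eventually_atTop.1 (oexp_atTop.eventually_ge_atTop 4)
      refine ⟨p, hp, max (max k₀ k₁) k₂, fun k hk => ⟨fun hlt => ?_, fun hkS => ?_⟩⟩
      · by_contra hkS
        have h5 := h3 k ((le_max_right _ _).trans ((le_max_left _ _).trans hk)) hkS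
        have h6 := h4 k ((le_max_right _ _).trans hk)
        have h7 := (abs_le.1 h5).1
        have h8 : (1 / 2 : ℝ) ≤ (cntO p (osq k) (osq (k + 1)) : ℝ) / oexp k := by linarith
        rw [le_div_iff₀ (by linarith)] at h8
        have h9 : (cntO p (osq k) (osq (k + 1)) : ℝ) < 2 := by exact_mod_cast hlt
        linarith
      · rw [h1 k ((le_max_left _ _).trans ((le_max_left _ _).trans hk)) hkS]
        norm_num

end Pool.Agent.Results.MP_5f6ee5_nt.ShapesBetweenOddSquares
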